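import Pool.Agent.H7.TRI.Stmts

/-!
# Row PUN of the board `tri`: the payment of a vertex as a sum over a set of neighbours
-/

set_option autoImplicit false
set_option linter.unusedVariables false

open Finset

namespace Pool.TRI

theorem PUN_thm (hDSJ : DSJStmt) : PUNStmt := by
  classical
  intro V _ _ G d m hH y
  obtain ⟨R, hR⟩ : ∃ R : Finset (Finset V), (RC G d).filter (fun C => y ∉ C) = R := ⟨_, rfl⟩
  have hRm : ∀ C, C ∈ R ↔ C ∈ RC G d ∧ y ∉ C := by
    intro C
    rw [← hR, mem_filter]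
  have hsub : ∀ C : Finset V, ∀ u ∈ Iso G C ∩ nb G y, u ∈ C := fun C u hu =>
    (mem_Iso.1 (mem_inter.1 hu).1).1
  have hdis : ∀ C ∈ R, ∀ C' ∈ R, ∀ u, u ∈ Iso G C ∩ nb G y → u ∈ Iso G C' ∩ nb G y → C' = C := by
    intro C hC C' hC' u hu hu'
    by_contra hne
    exact disjoint_left.1 (hDSJ V G d m hH C' ((hRm C').1 hC').1 C ((hRm C).1 hC).1 hne)
      (hsub C' u hu') (hsub C u hu)
  have key : ∀ C ∈ R, ∀ u ∈ Iso G C ∩ nb G y,
      ∑ D ∈ R.filter (fun D => u ∈ Iso G D ∩ nb G y), lk G d D u = lk G d C u := by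
    intro C hC u hu
    have h1 : R.filter (fun D => u ∈ Iso G D ∩ nb G y) = {C} := by
      ext D
      rw [mem_filter, mem_singleton]
      constructor
      · rintro ⟨hD, hD'⟩
        exact hdis C hC D hD u hu hD'
      · rintro rfl
        exact ⟨hC, hu⟩
    rw [h1, sum_singleton]
  refine ⟨R.biUnion (fun C => Iso G C ∩ nb G y),
    fun u => ∑ D ∈ R.filter (fun D => u ∈ Iso G D ∩ nb G y), lk G d D u, ?_, ?_, ?_⟩
  · intro u hu
    obtain ⟨C, hC, hu⟩ := mem_biUnion.1 hu
    exact (mem_inter.1 hu).2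
  · rw [sum_biUnion]
    · unfold pay
      rw [hR]
      refine sum_congr rfl fun C hC => ?_
      refine Eq.trans ?_ (sum_congr rfl fun u hu => (key C hC u hu).symm)
      congr!
    · intro C hC C' hC' hne
      rw [Function.onFun, disjoint_left]
      intro u hu hu'
      exact hne (hdis C hC C' hC' u hu hu').symm
  · intro u hu
    obtain ⟨C, hC, hu⟩ := mem_biUnion.1 hu
    exact ⟨C, ((hRm C).1 hC).1, ((hRm C).1 hC).2, (mem_inter.1 hu).1, key C hC u hu⟩

end Pool.TRI
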